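import Mathlib

/-!
# MP_490a28_an: potential averages along Dirichlet eigenfunctions are not monotone

For the linear (convex) potential `V(x) = c x`, `c > 0`, on the interval `(0,1)` the averages
`⟨V⟩_j` are eventually larger than `c/2` and converge to `c/2`; hence they decrease infinitely
often.
-/

set_option autoImplicit false

open MeasureTheory Set

namespace Pool.Agent.Results.MP_490a28_an.LinearPotential

/-- `u` is a classical Dirichlet eigenfunction of `-d²/dx² + V` on `(a,b)` with eigenvalue `l`. -/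
structure DirichletEigen (a b : ℝ) (V : ℝ → ℝ) (l : ℝ) (u : ℝ → ℝ) : Prop where
  cont : ContinuousOn u (Icc a b)
  left : u a = 0
  right : u b = 0
  diff : ∀ x ∈ Ioo a b, DifferentiableAt ℝ u x
  eqn : ∀ x ∈ Ioo a b, HasDerivAt (deriv u) ((V x - l) * u x) x

/-- Lebesgue measure on `(a,b)`. -/
noncomputable def lebI (a b : ℝ) : Measure ℝ := volume.restrict (Ioo a b)

/-- The functions `u j` form an orthonormal basis of `L²(a,b)`. -/
def IsOrthoBasis (a b : ℝ) (u : ℕ → ℝ → ℝ) : Prop :=
  ∃ B : HilbertBasis ℕ ℝ (Lp ℝ 2 (lebI a b)), ∀ j, ∀ᵐ x ∂(lebI a b), (B j : ℝ → ℝ) x = u j x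

/-- `u` is an admissible eigenbasis for `-d²/dx² + V` on `(a,b)` with Dirichlet conditions,
with nondecreasing eigenvalues `l`. -/
structure Admissible (a b : ℝ) (V : ℝ → ℝ) (l : ℕ → ℝ) (u : ℕ → ℝ → ℝ) : Prop where
  mono : Monotone l
  eig : ∀ j, DirichletEigen a b V (l j) (u j)
  basis : IsOrthoBasis a b u

/-- The mean of the potential in the state `u`. -/
noncomputable def meanV (a b : ℝ) (V : ℝ → ℝ) (u : ℝ → ℝ) : ℝ :=
  ∫ x in a..b, V x * u x ^ 2

/-- The derivative of a Dirichlet eigenfunction extends continuously to the closed interval. -/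
lemma exists_ext {a b : ℝ} (hab : a < b) {V : ℝ → ℝ} (hV : Continuous V) {l : ℝ} {u : ℝ → ℝ}
    (h : DirichletEigen a b V l u) :
    ∃ w : ℝ → ℝ, ContinuousOn w (Icc a b) ∧ (∀ x ∈ Ioo a b, HasDerivAt u (w x) x) ∧
      (∀ x ∈ Ioo a b, HasDerivAt w ((V x - l) * u x) x) := by
  have hg : ContinuousOn (fun x => (V x - l) * u x) (Icc a b) :=
    ((hV.sub continuous_const).continuousOn).mul h.cont
  set G : ℝ → ℝ := fun x => ∫ t in a..x, (V t - l) * u t with hG
  have hGc : ContinuousOn G (Icc a b) := by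
    have := intervalIntegral.continuousOn_primitive_interval (μ := volume) (f := fun x => (V x - l) * u x)
      (a := a) (b := b) ?_
    · rw [uIcc_of_le hab.le] at this
      exact this
    · rw [uIcc_of_le hab.le]
      exact hg.integrableOn_Icc
  have hGd : ∀ x ∈ Ioo a b, HasDerivAt G ((V x - l) * u x) x := by
    intro x hx
    apply intervalIntegral.integral_hasDerivAt_right
    · apply ContinuousOn.intervalIntegrable
      rw [uIcc_of_le hx.1.le]
      exact hg.mono (Icc_subset_Icc le_rfl hx.2.le)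
    · exact (hg.mono Ioo_subset_Icc_self).stronglyMeasurableAtFilter isOpen_Ioo x hx
    · exact (hg.mono Ioo_subset_Icc_self).continuousAt (Ioo_mem_nhds hx.1 hx.2)
  have hd : ∀ x ∈ Ioo a b, HasDerivAt (fun y => deriv u y - G y) 0 x := by
    intro x hx
    have := (h.eqn x hx).fun_sub (hGd x hx)
    rwa [sub_self] at this
  obtain ⟨k, hk⟩ : ∃ k, ∀ x ∈ Ioo a b, deriv u x - G x = k := by
    have hmid : (a + b) / 2 ∈ Ioo a b := ⟨by linarith, by linarith⟩
    refine ⟨deriv u ((a + b) / 2) - G ((a + b) / 2), fun x hx => ?_⟩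
    have hconv : Convex ℝ (Ioo a b) := convex_Ioo a b
    have := isOpen_Ioo.is_const_of_deriv_eq_zero (hconv.isPreconnected)
      (f := fun y => deriv u y - G y) (s := Ioo a b)
      (fun y hy => (hd y hy).differentiableAt.differentiableWithinAt)
      (fun y hy => (hd y hy).deriv) hx hmid
    exact this
  refine ⟨fun x => G x + k, hGc.add continuousOn_const, ?_, ?_⟩
  · intro x hx
    have : G x + k = deriv u x := by rw [← hk x hx]; ring
    simp only [this]
    exact (h.diff x hx).hasDerivAt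
  · intro x hx
    exact (hGd x hx).add_const k

/-- The three exact identities. -/
lemma core {c l : ℝ} (hc : 0 < c) (hl : c < l) {u : ℝ → ℝ}
    (h : DirichletEigen 0 1 (fun x => c * x) l u) (hn : ∫ x in (0 : ℝ)..1, u x ^ 2 = 1) :
    ∃ A R : ℝ, 3 * meanV 0 1 (fun x => c * x) u = 2 * l - A ∧ 0 ≤ R ∧
      R ≤ (15 * c ^ 3 / 16) / (√(l - c)) ^ 7 ∧ A / √(l - c) - (A + c) / √l = R := by
  obtain ⟨w, hwc, hu, hw⟩ := exists_ext (V := fun x => c * x) zero_lt_one (by fun_prop) h
  have huc := h.cont
  have hu0 := h.left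
  have hu1 := h.right
  have hii : ∀ f : ℝ → ℝ, ContinuousOn f (Icc (0:ℝ) 1) → IntervalIntegrable f volume 0 1 := by
    intro f hf
    apply ContinuousOn.intervalIntegrable
    rwa [uIcc_of_le zero_le_one]
  have hidc : ContinuousOn (fun x : ℝ => x) (Icc (0:ℝ) 1) := continuousOn_id
  -- identity 1
  have I1 : w 1 ^ 2 - w 0 ^ 2 = - c := by
    have hF := intervalIntegral.integral_eq_sub_of_hasDerivAt_of_le (a := 0) (b := 1)
      (f := fun x => w x ^ 2 - (c * x - l) * u x ^ 2) (f' := fun x => - (c * u x ^ 2)) zero_le_one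
      (by fun_prop) (by
        intro x hx
        have h1 := hu x hx
        have h2 := hw x hx
        have h3 : HasDerivAt (fun x : ℝ => c * x - l) c x := by
          simpa using ((hasDerivAt_id x).const_mul c).sub_const l
        convert (h2.fun_pow 2).fun_sub (h3.fun_mul (h1.fun_pow 2)) using 1
        ring) (hii _ (by fun_prop))
    simp only [hu0, hu1, intervalIntegral.integral_neg, intervalIntegral.integral_const_mul, hn] at hF
    nlinarith [hF]
  -- identity 2
  have I2 : 3 * meanV 0 1 (fun x => c * x) u = 2 * l - w 1 ^ 2 := by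
    have hF := intervalIntegral.integral_eq_sub_of_hasDerivAt_of_le (a := 0) (b := 1)
      (f := fun x => x * w x ^ 2 - x * (c * x - l) * u x ^ 2 - u x * w x)
      (f' := fun x => (2 * l) * u x ^ 2 - 3 * ((c * x) * u x ^ 2)) zero_le_one
      (by fun_prop) (by
        intro x hx
        have h1 := hu x hx
        have h2 := hw x hx
        have h3 : HasDerivAt (fun x : ℝ => x * (c * x - l)) (2 * c * x - l) x := by
          have h0 : HasDerivAt (fun x : ℝ => c * x - l) c x := by
            simpa using ((hasDerivAt_id x).const_mul c).sub_const l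
          have := (hasDerivAt_id' x).fun_mul h0
          refine this.congr_deriv ?_
          ring
        convert (((hasDerivAt_id' x).fun_mul (h2.fun_pow 2)).fun_sub (h3.fun_mul (h1.fun_pow 2))).fun_sub (h1.fun_mul h2) using 1
        ring) (hii _ (by fun_prop))
    rw [intervalIntegral.integral_sub (hii _ (by fun_prop)) (hii _ (by fun_prop))] at hF
    simp only [hu0, hu1, intervalIntegral.integral_const_mul, hn] at hF
    unfold meanV
    nlinarith [hF]
  -- identity 3
  set r : ℝ → ℝ := fun x => √(l - c * x) with hr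
  have hq : ∀ x ∈ Icc (0:ℝ) 1, 0 < l - c * x := by
    intro x hx
    have : c * x ≤ c * 1 := mul_le_mul_of_nonneg_left hx.2 hc.le
    linarith
  have hrpos : ∀ x ∈ Icc (0:ℝ) 1, 0 < r x := fun x hx => Real.sqrt_pos.2 (hq x hx)
  have hr2 : ∀ x ∈ Icc (0:ℝ) 1, r x ^ 2 = l - c * x := fun x hx => Real.sq_sqrt (hq x hx).le
  have hrc : ContinuousOn r (Icc (0:ℝ) 1) := by
    apply Continuous.continuousOn
    fun_prop
  have hrne : ∀ x ∈ Icc (0:ℝ) 1, r x ≠ 0 := fun x hx => (hrpos x hx).ne'
  have hrd : ∀ x ∈ Ioo (0:ℝ) 1, HasDerivAt r (-c / (2 * r x)) x := by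
    intro x hx
    have h3 : HasDerivAt (fun x : ℝ => l - c * x) (-c) x := by
      simpa using ((hasDerivAt_id x).const_mul c).const_sub l
    exact h3.sqrt (hq x (Ioo_subset_Icc_self hx)).ne'
  have hGi : ContinuousOn (fun x => (15 * c ^ 3 / 16) * (u x ^ 2 / r x ^ 7)) (Icc (0:ℝ) 1) := by
    apply ContinuousOn.mul continuousOn_const
    apply ContinuousOn.div (by fun_prop) (by fun_prop)
    intro x hx
    exact pow_ne_zero _ (hrne x hx)
  have I3 : w 1 ^ 2 / r 1 - w 0 ^ 2 / r 0
      = ∫ x in (0:ℝ)..1, (15 * c ^ 3 / 16) * (u x ^ 2 / r x ^ 7) := by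
    have hF := intervalIntegral.integral_eq_sub_of_hasDerivAt_of_le (a := 0) (b := 1)
      (f := fun x => w x ^ 2 / r x + u x ^ 2 * r x - (c / 2) * (u x * w x / r x ^ 3)
        + (3 * c ^ 2 / 8) * (u x ^ 2 / r x ^ 5))
      (f' := fun x => (15 * c ^ 3 / 16) * (u x ^ 2 / r x ^ 7)) zero_le_one
      (by
        refine ((ContinuousOn.add ?_ (by fun_prop)).sub ?_).add ?_
        · exact ContinuousOn.div (by fun_prop) (by fun_prop) hrne
        · exact continuousOn_const.mul (ContinuousOn.div (by fun_prop) (by fun_prop)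
            (fun x hx => pow_ne_zero _ (hrne x hx)))
        · exact continuousOn_const.mul (ContinuousOn.div (by fun_prop) (by fun_prop)
            (fun x hx => pow_ne_zero _ (hrne x hx))))
      (by
        intro x hx
        have hxI := Ioo_subset_Icc_self hx
        have h1 := hu x hx
        have h2 := hw x hx
        have h3 := hrd x hx
        have hn0 := hrne x hxI
        have hlam : l = r x ^ 2 + c * x := by rw [hr2 x hxI]; ring
        have d1 := (h2.fun_pow 2).fun_div h3 hn0
        have d2 := (h1.fun_pow 2).fun_mul h3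
        have d3 := ((h1.fun_mul h2).fun_div (h3.fun_pow 3) (pow_ne_zero 3 hn0)).const_mul (c / 2)
        have d4 := ((h1.fun_pow 2).fun_div (h3.fun_pow 5) (pow_ne_zero 5 hn0)).const_mul (3 * c ^ 2 / 8)
        convert ((d1.fun_add d2).fun_sub d3).fun_add d4 using 1
        have e : c * x - l = - r x ^ 2 := by rw [hr2 x hxI]; ring
        simp only [e]
        field_simp
        ring) (hii _ hGi)
    rw [hF]
    simp only [hu0, hu1]
    ring
  refine ⟨w 1 ^ 2, ∫ x in (0:ℝ)..1, (15 * c ^ 3 / 16) * (u x ^ 2 / r x ^ 7), I2, ?_, ?_, ?_⟩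
  · apply intervalIntegral.integral_nonneg zero_le_one
    intro x hx
    have := hrpos x hx
    positivity
  · have hb : (15 * c ^ 3 / 16) / (√(l - c)) ^ 7
        = ∫ x in (0:ℝ)..1, ((15 * c ^ 3 / 16) / (√(l - c)) ^ 7) * u x ^ 2 := by
      rw [intervalIntegral.integral_const_mul, hn, mul_one]
    rw [hb]
    apply intervalIntegral.integral_mono_on zero_le_one (hii _ hGi) (hii _ (by fun_prop))
    intro x hx
    have hrx := hrpos x hx
    have hmono : √(l - c) ≤ r x := by
      apply Real.sqrt_le_sqrt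
      have : c * x ≤ c * 1 := mul_le_mul_of_nonneg_left hx.2 hc.le
      linarith
    have h0 : 0 < √(l - c) := Real.sqrt_pos.2 (by linarith)
    have hp : √(l - c) ^ 7 ≤ r x ^ 7 := pow_le_pow_left₀ h0.le hmono 7
    have : u x ^ 2 / r x ^ 7 ≤ u x ^ 2 / √(l - c) ^ 7 := by
      apply div_le_div_of_nonneg_left (by positivity) (by positivity) hp
    calc (15 * c ^ 3 / 16) * (u x ^ 2 / r x ^ 7)
        ≤ (15 * c ^ 3 / 16) * (u x ^ 2 / √(l - c) ^ 7) :=
          mul_le_mul_of_nonneg_left this (by positivity)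
      _ = ((15 * c ^ 3 / 16) / (√(l - c)) ^ 7) * u x ^ 2 := by ring
  · rw [← I3]
    have e1 : r 1 = √(l - c) := by simp [hr]
    have e0 : r 0 = √l := by simp [hr]
    have e2 : w 0 ^ 2 = w 1 ^ 2 + c := by linarith
    rw [e1, e0, e2]

/-- Upper and lower bound for the mean. -/
lemma bounds {c l M A R : ℝ} (hc : 0 < c) (hl : 2 * c ≤ l) (hl2 : 120 < l)
    (h1 : 3 * M = 2 * l - A) (hR : 0 ≤ R) (hR2 : R ≤ (15 * c ^ 3 / 16) / (√(l - c)) ^ 7)
    (h3 : A / √(l - c) - (A + c) / √l = R) :
    c / 2 < M ∧ M ≤ c / 2 + c ^ 2 / (6 * l) := by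
  have hlc : 0 < l - c := by linarith
  have hl0 : 0 < l := by linarith
  set s := √l with hs
  set t := √(l - c) with ht
  have hs0 : 0 < s := Real.sqrt_pos.2 hl0
  have ht0 : 0 < t := Real.sqrt_pos.2 hlc
  have hs2 : s ^ 2 = l := Real.sq_sqrt hl0.le
  have ht2 : t ^ 2 = l - c := Real.sq_sqrt hlc.le
  have hst : t < s := Real.sqrt_lt_sqrt hlc.le (by linarith)
  have hcst : c = (s - t) * (s + t) := by nlinarith
  -- A = (s+t) t (1 + R s / c)
  have hA : A * (s - t) = c * t + R * s * t := by
    have : A / t - (A + c) / s = (A * s - (A + c) * t) / (t * s) := by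
      field_simp
    rw [this, div_eq_iff (by positivity)] at h3
    nlinarith
  have hA' : A * c = (s + t) * (c * t + R * s * t) := by
    rw [← hA]
    nth_rewrite 1 [hcst]
    ring
  -- 3 M c - 3 c^2/2 = ...
  have hM : (3 * M - 3 * c / 2) * c = c ^ 2 * (s - t) / (2 * (s + t)) - (s + t) * s * t * R := by
    have e1 : 3 * M * c = 2 * s ^ 2 * c - (s + t) * (c * t + R * s * t) := by
      rw [h1, ← hA', hs2]; ring
    have e2 : c * (2 * s ^ 2 - (s + t) * t) = 3 * c ^ 2 / 2 + c ^ 2 * (s - t) / (2 * (s + t)) := by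
      have : 2 * s ^ 2 - (s + t) * t = (2 * s + t) * (s - t) := by ring
      rw [this]
      field_simp
      rw [hcst]
      ring
    nlinarith
  constructor
  · have hsum : 0 < s + t := by positivity
    have key : (s + t) * s * t * R < c ^ 2 * (s - t) / (2 * (s + t)) := by
      rw [lt_div_iff₀ (by positivity)]
      have h5 : R * t ^ 7 ≤ 15 * c ^ 3 / 16 := by
        rwa [le_div_iff₀ (by positivity)] at hR2
      -- need (s+t)*s*t*R*(2*(s+t)) < c^2 (s-t); multiply by (s+t) t^6
      have h6 : 15 * s ^ 4 < t ^ 6 := by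
        have a1 : t ^ 2 ≥ s ^ 2 / 2 := by rw [ht2, hs2]; linarith
        have a2 : t ^ 6 ≥ (s ^ 2 / 2) ^ 3 := by
          have : (t ^ 2) ^ 3 ≥ (s ^ 2 / 2) ^ 3 := pow_le_pow_left₀ (by positivity) a1 3
          calc t ^ 6 = (t ^ 2) ^ 3 := by ring
            _ ≥ _ := this
        have a3 : (120:ℝ) < s ^ 2 := by rw [hs2]; exact hl2
        have a4 : (0:ℝ) < s ^ 4 := by positivity
        nlinarith
      have h7 : (s + t) ^ 3 * s ≤ 8 * s ^ 4 := by
        have : (s + t) ^ 3 ≤ (2 * s) ^ 3 := pow_le_pow_left₀ (by positivity) (by linarith) 3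
        calc (s + t) ^ 3 * s ≤ (2 * s) ^ 3 * s := mul_le_mul_of_nonneg_right this hs0.le
          _ = 8 * s ^ 4 := by ring
      have h8 : (s + t) * s * t * R * (2 * (s + t)) * ((s + t) * t ^ 6)
          ≤ 2 * ((s + t) ^ 3 * s) * (15 * c ^ 3 / 16) := by
        calc (s + t) * s * t * R * (2 * (s + t)) * ((s + t) * t ^ 6)
            = 2 * ((s + t) ^ 3 * s) * (R * t ^ 7) := by ring
          _ ≤ _ := mul_le_mul_of_nonneg_left h5 (by positivity)
      have h9 : 2 * ((s + t) ^ 3 * s) * (15 * c ^ 3 / 16) ≤ 15 * s ^ 4 * c ^ 3 := by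
        have : (0:ℝ) < c ^ 3 := by positivity
        nlinarith
      have h10 : 15 * s ^ 4 * c ^ 3 < t ^ 6 * c ^ 3 :=
        mul_lt_mul_of_pos_right h6 (by positivity)
      have h11 : c ^ 2 * (s - t) * ((s + t) * t ^ 6) = t ^ 6 * c ^ 3 := by
        calc c ^ 2 * (s - t) * ((s + t) * t ^ 6) = c ^ 2 * ((s - t) * (s + t)) * t ^ 6 := by ring
          _ = c ^ 2 * c * t ^ 6 := by rw [← hcst]
          _ = _ := by ring
      have h12 : (s + t) * s * t * R * (2 * (s + t)) * ((s + t) * t ^ 6)
          < c ^ 2 * (s - t) * ((s + t) * t ^ 6) := by linarith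
      exact lt_of_mul_lt_mul_right h12 (by positivity)
    have : 0 < (3 * M - 3 * c / 2) * c := by rw [hM]; linarith
    have := pos_of_mul_pos_left this hc.le
    linarith
  · have h5 : (3 * M - 3 * c / 2) * c ≤ c ^ 2 * (s - t) / (2 * (s + t)) := by
      rw [hM]
      have : 0 ≤ (s + t) * s * t * R := by positivity
      linarith
    have h6 : c ^ 2 * (s - t) / (2 * (s + t)) ≤ c * (c ^ 2 / (2 * l)) := by
      have : c ^ 2 * (s - t) / (2 * (s + t)) = c ^ 3 / (2 * (s + t) ^ 2) := by
        rw [div_eq_div_iff (by positivity) (by positivity)]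
        have : c ^ 3 = c ^ 2 * ((s - t) * (s + t)) := by rw [← hcst]; ring
        rw [this]; ring
      rw [this]
      calc c ^ 3 / (2 * (s + t) ^ 2) ≤ c ^ 3 / (2 * l) := by
            apply div_le_div_of_nonneg_left (by positivity) (by positivity)
            rw [← hs2]
            nlinarith
        _ = c * (c ^ 2 / (2 * l)) := by ring
    have h7 : (3 * M - 3 * c / 2) * c ≤ (c ^ 2 / (2 * l)) * c := by linarith
    have h8 := le_of_mul_le_mul_right h7 hc
    have h9 : c ^ 2 / (6 * l) = (c ^ 2 / (2 * l)) / 3 := by field_simp; norm_num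
    rw [h9]
    linarith


instance (a b : ℝ) : IsFiniteMeasure (lebI a b) := by
  unfold lebI
  exact ⟨by simp⟩

lemma memLp_of_cont {a b : ℝ} {f : ℝ → ℝ} (hf : ContinuousOn f (Icc a b)) :
    MemLp f 2 (lebI a b) := by
  have h1 : MemLp f 2 (volume.restrict (Icc a b)) := by
    obtain ⟨C, hC⟩ := isCompact_Icc.exists_bound_of_continuousOn hf
    have hm : AEStronglyMeasurable f (volume.restrict (Icc a b)) :=
      hf.aestronglyMeasurable measurableSet_Icc
    have : IsFiniteMeasure (volume.restrict (Icc a b)) := ⟨by simp⟩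
    refine MemLp.of_bound hm C ?_
    rw [ae_restrict_iff' measurableSet_Icc]
    exact Filter.Eventually.of_forall fun x hx => hC x hx
  exact h1.mono_measure (Measure.restrict_mono Ioo_subset_Icc_self le_rfl)

lemma integral_lebI {a b : ℝ} (hab : a ≤ b) (f : ℝ → ℝ) :
    ∫ x, f x ∂(lebI a b) = ∫ x in a..b, f x := by
  rw [intervalIntegral.integral_of_le hab, lebI, integral_Ioc_eq_integral_Ioo]

/-- Parseval for continuous functions. -/
lemma parseval {a b : ℝ} (hab : a ≤ b) {u : ℕ → ℝ → ℝ} (hb : IsOrthoBasis a b u)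
    {f g : ℝ → ℝ} (hf : ContinuousOn f (Icc a b)) (hg : ContinuousOn g (Icc a b)) :
    HasSum (fun j => (∫ x in a..b, f x * u j x) * (∫ x in a..b, g x * u j x))
      (∫ x in a..b, f x * g x) := by
  obtain ⟨B, hB⟩ := hb
  have key : ∀ {p q : ℝ → ℝ} (hp : MemLp p 2 (lebI a b)) (Q : Lp ℝ 2 (lebI a b))
      (hQ : ∀ᵐ x ∂(lebI a b), (Q : ℝ → ℝ) x = q x),
      inner ℝ (hp.toLp p) Q = ∫ x in a..b, p x * q x := by
    intro p q hp Q hQ
    rw [L2.inner_def, ← integral_lebI hab]
    apply integral_congr_ae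
    filter_upwards [hp.coeFn_toLp, hQ] with x h1 h2
    rw [h1, h2]
    simp [mul_comm]
  have h := B.hasSum_inner_mul_inner ((memLp_of_cont hf).toLp f) ((memLp_of_cont hg).toLp g)
  rw [key (memLp_of_cont hf) _ ((memLp_of_cont hg).coeFn_toLp)] at h
  have e : (fun j => inner ℝ ((memLp_of_cont hf).toLp f) (B j)
      * inner ℝ (B j) ((memLp_of_cont hg).toLp g))
      = fun j => (∫ x in a..b, f x * u j x) * (∫ x in a..b, g x * u j x) := by
    funext j
    rw [key (memLp_of_cont hf) (B j) (hB j), real_inner_comm,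
      key (memLp_of_cont hg) (B j) (hB j)]
  rw [e] at h
  exact h

lemma norm_one {a b : ℝ} (hab : a ≤ b) {u : ℕ → ℝ → ℝ} (hb : IsOrthoBasis a b u) (j : ℕ) :
    ∫ x in a..b, u j x ^ 2 = 1 := by
  obtain ⟨B, hB⟩ := hb
  have h1 : inner ℝ (B j) (B j) = (1 : ℝ) := by
    rw [real_inner_self_eq_norm_sq, B.orthonormal.1 j]; norm_num
  rw [L2.inner_def] at h1
  rw [← h1, ← integral_lebI hab]
  apply integral_congr_ae
  filter_upwards [hB j] with x h
  rw [h]
  simp [pow_two]

/-- Green's formula against a sine. -/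
lemma green {V : ℝ → ℝ} (hV : Continuous V) {l : ℝ} {u : ℝ → ℝ}
    (h : DirichletEigen 0 1 V l u) (k : ℕ) :
    ∫ x in (0:ℝ)..1, ((k * Real.pi) ^ 2 * Real.sin (k * Real.pi * x)
      + V x * Real.sin (k * Real.pi * x)) * u x
      = l * ∫ x in (0:ℝ)..1, Real.sin (k * Real.pi * x) * u x := by
  obtain ⟨w, hwc, hu, hw⟩ := exists_ext zero_lt_one hV h
  have huc := h.cont
  have hu0 := h.left
  have hu1 := h.right
  have hii : ∀ f : ℝ → ℝ, ContinuousOn f (Icc (0:ℝ) 1) → IntervalIntegrable f volume 0 1 := by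
    intro f hf
    apply ContinuousOn.intervalIntegrable
    rwa [uIcc_of_le zero_le_one]
  have hVc : ContinuousOn V (Icc (0:ℝ) 1) := hV.continuousOn
  have hsc : ContinuousOn (fun x : ℝ => Real.sin (k * Real.pi * x)) (Icc (0:ℝ) 1) := by
    apply Continuous.continuousOn; fun_prop
  have hcc : ContinuousOn (fun x : ℝ => Real.cos (k * Real.pi * x)) (Icc (0:ℝ) 1) := by
    apply Continuous.continuousOn; fun_prop
  have hF := intervalIntegral.integral_eq_sub_of_hasDerivAt_of_le (a := 0) (b := 1)
    (f := fun x => w x * Real.sin (k * Real.pi * x) - u x * (k * Real.pi * Real.cos (k * Real.pi * x)))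
    (f' := fun x => ((k * Real.pi) ^ 2 * Real.sin (k * Real.pi * x)
      + V x * Real.sin (k * Real.pi * x)) * u x - l * (Real.sin (k * Real.pi * x) * u x))
    zero_le_one (by fun_prop) (by
      intro x hx
      have h1 := hu x hx
      have h2 := hw x hx
      have h3 : HasDerivAt (fun x : ℝ => k * Real.pi * x) (k * Real.pi) x := by
        simpa using (hasDerivAt_id x).const_mul (k * Real.pi)
      have hs := h3.sin
      have hc := h3.cos.const_mul (k * Real.pi)
      convert (h2.fun_mul hs).fun_sub (h1.fun_mul hc) using 1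
      ring) (hii _ (by fun_prop))
  rw [intervalIntegral.integral_sub (hii _ (by fun_prop)) (hii _ (by fun_prop)),
    intervalIntegral.integral_const_mul] at hF
  have hs1 : Real.sin (k * Real.pi * 1) = 0 := by rw [mul_one]; exact Real.sin_nat_mul_pi k
  simp only [hu0, hu1, hs1, mul_zero, Real.sin_zero, zero_mul, sub_self] at hF
  linarith

/-- The eigenvalues of an admissible eigenbasis are unbounded. -/
lemma unbounded {c : ℝ} (hc : 0 < c) {l : ℕ → ℝ} {u : ℕ → ℝ → ℝ}
    (h : Admissible 0 1 (fun x => c * x) l u) (L : ℝ) : ∃ j, L < l j := by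
  by_contra hcon
  push Not at hcon
  -- choose a large frequency
  obtain ⟨k, hk⟩ : ∃ k : ℕ, |L| + 1 < (k * Real.pi) ^ 2 ∧ 1 ≤ k := by
    obtain ⟨k, hk⟩ := exists_nat_gt (|L| + 1)
    have hk1 : (1:ℝ) < k := by have := abs_nonneg L; linarith
    refine ⟨k, ?_, by exact_mod_cast hk1.le⟩
    have hpi := Real.pi_gt_three
    have : (k:ℝ) ≤ k * Real.pi := by nlinarith
    nlinarith
  set f : ℝ → ℝ := fun x => Real.sin (k * Real.pi * x) with hf
  set g : ℝ → ℝ := fun x => (k * Real.pi) ^ 2 * Real.sin (k * Real.pi * x)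
    + (c * x) * Real.sin (k * Real.pi * x) with hg
  have hfc : Continuous f := by fun_prop
  have hgc : Continuous g := by fun_prop
  have P1 := parseval zero_le_one h.basis (f := g) (g := f) hgc.continuousOn hfc.continuousOn
  have P2 := parseval zero_le_one h.basis (f := f) (g := f) hfc.continuousOn hfc.continuousOn
  have e1 : ∀ j, (∫ x in (0:ℝ)..1, g x * u j x) = l j * ∫ x in (0:ℝ)..1, f x * u j x := by
    intro j
    exact green (V := fun x => c * x) (by fun_prop) (h.eig j) k
  have hle : (∫ x in (0:ℝ)..1, g x * f x) ≤ |L| * ∫ x in (0:ℝ)..1, f x * f x := by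
    refine hasSum_le (fun j => ?_) P1 (P2.mul_left |L|)
    rw [e1 j]
    have : l j ≤ |L| := (hcon j).trans (le_abs_self L)
    nlinarith [mul_self_nonneg (∫ x in (0:ℝ)..1, f x * u j x)]
  have hge : (k * Real.pi) ^ 2 * (∫ x in (0:ℝ)..1, f x * f x) ≤ ∫ x in (0:ℝ)..1, g x * f x := by
    rw [← intervalIntegral.integral_const_mul]
    apply intervalIntegral.integral_mono_on zero_le_one
    · exact (by fun_prop : Continuous _).intervalIntegrable _ _
    · exact (by fun_prop : Continuous _).intervalIntegrable _ _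
    · intro x hx
      simp only [hf, hg]
      have : 0 ≤ c * x := mul_nonneg hc.le hx.1
      nlinarith [mul_nonneg this (mul_self_nonneg (Real.sin (k * Real.pi * x)))]
  have hpos : 0 < ∫ x in (0:ℝ)..1, f x * f x := by
    have hk0 : (0:ℝ) < k * Real.pi := by
      have : (1:ℝ) ≤ k := by exact_mod_cast hk.2
      have := Real.pi_pos
      positivity
    have hF := intervalIntegral.integral_eq_sub_of_hasDerivAt (a := 0) (b := 1)
      (f := fun x => x / 2 - Real.sin (k * Real.pi * x) * Real.cos (k * Real.pi * x)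
        / (2 * (k * Real.pi)))
      (f' := fun x => f x * f x) (by
        intro x _
        have h3 : HasDerivAt (fun x : ℝ => k * Real.pi * x) (k * Real.pi) x := by
          simpa using (hasDerivAt_id x).const_mul (k * Real.pi)
        refine (((hasDerivAt_id' x).div_const 2).fun_sub
          ((h3.sin.fun_mul h3.cos).div_const (2 * (k * Real.pi)))).congr_deriv ?_
        simp only [hf]
        have := Real.sin_sq_add_cos_sq (k * Real.pi * x)
        generalize Real.sin (k * Real.pi * x) = S at *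
        generalize Real.cos (k * Real.pi * x) = C at *
        generalize (k:ℝ) * Real.pi = K at *
        have hK : K ≠ 0 := hk0.ne'
        field_simp
        linear_combination (-1 : ℝ) * this) ((by fun_prop : Continuous _).intervalIntegrable _ _)
    rw [hF]
    have hs1 : Real.sin (k * Real.pi * 1) = 0 := by rw [mul_one]; exact Real.sin_nat_mul_pi k
    simp only [hs1, mul_zero, Real.sin_zero, zero_mul, zero_div, sub_zero]
    norm_num
  nlinarith [hk.1]

/-- For the convex potential `V(x) = c x` (`c > 0`) on `(0,1)`, every admissible eigenbasis has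
infinitely many indices `j` at which the mean of the potential strictly decreases. -/
theorem result (c : ℝ) (hc : 0 < c) (l : ℕ → ℝ) (u : ℕ → ℝ → ℝ)
    (h : Admissible 0 1 (fun x => c * x) l u) (J : ℕ) :
    ∃ j, J ≤ j ∧
      meanV 0 1 (fun x => c * x) (u (j + 1)) < meanV 0 1 (fun x => c * x) (u j) := by
  by_contra hcon
  push Not at hcon
  set M : ℕ → ℝ := fun j => meanV 0 1 (fun x => c * x) (u j) with hM
  have hb : ∀ j, 2 * c + 121 < l j → c / 2 < M j ∧ M j ≤ c / 2 + c ^ 2 / (6 * l j) := by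
    intro j hj
    obtain ⟨A, R, h1, h2, h3, h4⟩ := core hc (by linarith) (h.eig j)
      (norm_one zero_le_one h.basis j)
    exact bounds hc (by linarith) (by linarith) h1 h2 h3 h4
  obtain ⟨j1, hj1⟩ := unbounded hc h (2 * c + 121)
  set j0 := max J j1 with hj0
  have hl0 : 2 * c + 121 < l j0 := lt_of_lt_of_le hj1 (h.mono (le_max_right _ _))
  have hm : ∀ j, j0 ≤ j → M j0 ≤ M j := by
    intro j hj
    induction j, hj using Nat.le_induction with
    | base => exact le_rfl
    | succ n hn ih => exact ih.trans (hcon n ((le_max_left _ _).trans hn))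
  set d := M j0 - c / 2 with hd
  have hd0 : 0 < d := by have := (hb j0 hl0).1; simp only [hd]; linarith
  obtain ⟨j2, hj2⟩ := unbounded hc h (max (2 * c + 121) (c ^ 2 / d))
  set j3 := max j0 j2 with hj3
  have hl3 : max (2 * c + 121) (c ^ 2 / d) < l j3 :=
    lt_of_lt_of_le hj2 (h.mono (le_max_right _ _))
  have hl3a : 2 * c + 121 < l j3 := (le_max_left _ _).trans_lt hl3
  have hl3b : c ^ 2 / d < l j3 := (le_max_right _ _).trans_lt hl3
  have hup := (hb j3 hl3a).2
  have hlo := hm j3 (le_max_left _ _)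
  have hl3p : 0 < l j3 := by linarith
  have h5 : c ^ 2 < l j3 * d := by rwa [div_lt_iff₀ hd0] at hl3b
  have h6 : c ^ 2 / (6 * l j3) < d := by
    rw [div_lt_iff₀ (by positivity)]
    nlinarith [sq_nonneg c]
  linarith

end Pool.Agent.Results.MP_490a28_an.LinearPotential
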